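import Mathlib

open Finset

set_option maxHeartbeats 4000000

namespace Pool.Agent.Results.MP_daf63b_nt.Counting

/-- `n` is a sum of a finite divisibility-antichain of numbers `p^k q^l`. -/
def Representable (p q n : ℕ) : Prop :=
  ∃ S : Finset ℕ, (∀ s ∈ S, ∃ k l : ℕ, s = p ^ k * q ^ l) ∧ (∀ s ∈ S, ∀ t ∈ S, s ∣ t → s = t) ∧ ∑ s ∈ S, s = n

/-- recursive superset of the set of sums -/
def F (p q : ℕ) : ℕ → ℕ → Finset ℕ
  | 0, _ => {0}
  | (A+1), B => F p q A B ∪ (range B).biUnion (fun l => (F p q A (B - l - 1)).image (fun s => p ^ A * q ^ l + q ^ (l+1) * s))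

lemma mem_F (p q : ℕ) (hp : 1 ≤ p) (hq : 1 ≤ q) (A : ℕ) : ∀ (B : ℕ) (S : Finset ℕ), (∀ s ∈ S, ∃ k < A, ∃ l < B, s = p ^ k * q ^ l) →
    (∀ s ∈ S, ∀ t ∈ S, s ∣ t → s = t) → ∑ s ∈ S, s ∈ F p q A B := by
  induction A with
  | zero =>
    intro B S h1 _
    have : S = ∅ := by
      apply eq_empty_of_forall_notMem
      intro s hs
      obtain ⟨k, hk, -⟩ := h1 s hs
      omega
    rw [this]; simp [F]
  | succ A ih =>
    intro B S h1 h2
    rw [F, mem_union]
    by_cases h : ∃ l < B, p ^ A * q ^ l ∈ S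
    · right
      obtain ⟨l, hl, hlS⟩ := h
      rw [mem_biUnion]
      refine ⟨l, mem_range.2 hl, ?_⟩
      rw [mem_image]
      have hqpos : 0 < q ^ (l+1) := by positivity
      -- structure of the other elements
      have h3 : ∀ s ∈ S.erase (p ^ A * q ^ l), ∃ k < A, ∃ l' < B - l - 1, s = q ^ (l+1) * (p ^ k * q ^ l') := by
        intro s hs
        rw [mem_erase] at hs
        obtain ⟨k, hk, l', hl', hs'⟩ := h1 s hs.2
        have hkA : k ≠ A := by
          rintro rfl
          rcases le_total l l' with hle | hle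
          · apply hs.1
            symm
            apply h2 _ hlS s hs.2
            rw [hs']
            exact Nat.mul_dvd_mul_left _ (pow_dvd_pow q hle)
          · apply hs.1
            apply h2 s hs.2 _ hlS
            rw [hs']
            exact Nat.mul_dvd_mul_left _ (pow_dvd_pow q hle)
        have hll' : l < l' := by
          by_contra hcon
          push Not at hcon
          apply hs.1
          apply h2 s hs.2 _ hlS
          rw [hs']
          exact Nat.mul_dvd_mul (pow_dvd_pow p (by omega)) (pow_dvd_pow q hcon)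
        refine ⟨k, by omega, l' - l - 1, by omega, ?_⟩
        have : q ^ l' = q ^ (l+1) * q ^ (l' - l - 1) := by rw [← pow_add]; congr 1; omega
        rw [hs', this]; ring
      set S1 := (S.erase (p ^ A * q ^ l)).image (fun s => s / q ^ (l+1)) with hS1
      have hdiv : ∀ s ∈ S.erase (p ^ A * q ^ l), q ^ (l+1) * (s / q ^ (l+1)) = s := by
        intro s hs
        obtain ⟨k, -, l', -, rfl⟩ := h3 s hs
        rw [Nat.mul_div_cancel_left _ hqpos]
      refine ⟨∑ s ∈ S1, s, ?_, ?_⟩
      · apply ih (B - l - 1) S1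
        · intro t ht
          rw [hS1, mem_image] at ht
          obtain ⟨s, hs, rfl⟩ := ht
          obtain ⟨k, hk, l', hl', hs'⟩ := h3 s hs
          exact ⟨k, hk, l', hl', by rw [hs', Nat.mul_div_cancel_left _ hqpos]⟩
        · intro t ht t' ht' hd
          rw [hS1, mem_image] at ht ht'
          obtain ⟨s, hs, rfl⟩ := ht
          obtain ⟨s', hs', rfl⟩ := ht'
          have e := h2 s (mem_of_mem_erase hs) s' (mem_of_mem_erase hs') (by
            rw [← hdiv s hs, ← hdiv s' hs']
            exact Nat.mul_dvd_mul_left _ hd)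
          rw [e]
      · have e1 : ∑ s ∈ S1, s = ∑ s ∈ S.erase (p ^ A * q ^ l), s / q ^ (l+1) := by
          rw [hS1]
          refine sum_image ?_
          intro x hx y hy hxy
          simp only at hxy
          rw [← hdiv x hx, ← hdiv y hy, hxy]
        rw [e1, mul_sum, sum_congr rfl hdiv, add_sum_erase S (fun s => s) hlS]
    · left
      push Not at h
      apply ih B S _ h2
      intro s hs
      obtain ⟨k, hk, l, hl, hs'⟩ := h1 s hs
      have : k ≠ A := by
        rintro rfl
        exact h l hl (hs' ▸ hs)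
      exact ⟨k, by omega, l, hl, hs'⟩

lemma F_card (p q : ℕ) (z : ℝ) (hz : 0 < z) (A : ℕ) : ∀ B : ℕ, ((F p q A B).card : ℝ) ≤ (1 + z) ^ A * (1 + 1 / z) ^ B := by
  have hw : 1 ≤ 1 + 1 / z := by have : 0 < 1 / z := by positivity
                                linarith
  induction A with
  | zero =>
    intro B
    simp only [F, card_singleton, Nat.cast_one, pow_zero, one_mul]
    exact one_le_pow₀ hw
  | succ A ih =>
    intro B
    rw [F]
    have h1 : ((F p q A B ∪ (range B).biUnion (fun l => (F p q A (B - l - 1)).image (fun s => p ^ A * q ^ l + q ^ (l+1) * s))).card : ℝ) ≤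
        (F p q A B).card + ∑ l ∈ range B, ((F p q A (B - l - 1)).card : ℝ) := by
      have h2 : (F p q A B ∪ (range B).biUnion (fun l => (F p q A (B - l - 1)).image (fun s => p ^ A * q ^ l + q ^ (l+1) * s))).card ≤
          (F p q A B).card + ∑ l ∈ range B, (F p q A (B - l - 1)).card := by
        refine (card_union_le _ _).trans (Nat.add_le_add_left ?_ _)
        exact card_biUnion_le.trans (sum_le_sum (fun l _ => card_image_le))
      exact_mod_cast h2
    refine h1.trans ?_
    set w := 1 + 1 / z with hwd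
    have h3 : ∑ l ∈ range B, ((F p q A (B - l - 1)).card : ℝ) ≤ (1 + z) ^ A * (z * w ^ B) := by
      have h4 : ∑ l ∈ range B, ((F p q A (B - l - 1)).card : ℝ) ≤ ∑ l ∈ range B, (1 + z) ^ A * w ^ (B - 1 - l) := by
        refine sum_le_sum (fun l _ => ?_)
        have e : B - l - 1 = B - 1 - l := by omega
        rw [e]; exact ih _
      refine h4.trans ?_
      rw [← mul_sum]
      apply mul_le_mul_of_nonneg_left _ (by positivity)
      rw [sum_range_reflect (fun j => w ^ j) B]
      have hwz : w - 1 = 1 / z := by rw [hwd]; ring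
      have hg := geom_sum_mul w B
      rw [hwz] at hg
      have : ∑ i ∈ range B, w ^ i = z * (w ^ B - 1) := by
        rw [← hg]; field_simp
      rw [this]
      nlinarith
    have h5 := ih B
    rw [pow_succ]
    nlinarith

lemma count_main (p q : ℕ) (hq : 2 ≤ q) (hp : 2 ≤ p) (z : ℝ) (hz : 0 < z) (s r s' r' : ℕ)
    (h1 : (1 + z) ^ s ≤ (p:ℝ) ^ r) (h2 : (1 + 1 / z) ^ s' ≤ (q:ℝ) ^ r') (h3 : r * s' + r' * s + 1 ≤ s * s') :
    {n : ℕ | 0 < n ∧ Nat.Coprime n (p * q) ∧ ¬ Representable p q n}.Infinite := by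
  intro hfin
  set E := hfin.toFinset with hE
  set T := s * s' with hT
  have hTpos : 1 ≤ T := by omega
  have hpq : 0 < p * q := by positivity
  set w := 1 + 1 / z with hwd
  have hw1 : 1 ≤ w := by have : 0 < 1 / z := by positivity
                         linarith
  have hz1 : 1 ≤ 1 + z := by linarith
  obtain ⟨y, hy⟩ := exists_nat_gt (((p * q : ℕ) : ℝ) * (1 + E.card + (1 + z) * w))
  have hpqR : (1:ℝ) ≤ ((p * q : ℕ) : ℝ) := by exact_mod_cast hpq
  have hC0 : 0 ≤ (1 + z) * w := by positivity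
  have hEc : (0:ℝ) ≤ E.card := by positivity
  have hy1 : (1:ℝ) ≤ y := by nlinarith
  have hypos : 0 < y := by exact_mod_cast (lt_of_lt_of_le one_pos hy1)
  set x := y ^ T with hx
  have hxpos : 0 < x := by positivity
  set a := Nat.log p x with ha
  set b := Nat.log q x with hb
  have hpa : p ^ a ≤ x := Nat.pow_log_le_self p hxpos.ne'
  have hqb : q ^ b ≤ x := Nat.pow_log_le_self q hxpos.ne'
  set J := x / (p * q) with hJ
  -- counting
  have hsub : (range J).image (fun j => 1 + (p * q) * j) ⊆ E ∪ F p q (a+1) (b+1) := by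
    intro n hn
    rw [mem_image] at hn
    obtain ⟨j, hj, rfl⟩ := hn
    rw [mem_range] at hj
    have hcop : Nat.Coprime (1 + (p * q) * j) (p * q) := by
      rw [Nat.coprime_add_mul_left_left]; exact Nat.coprime_one_left _
    have hle : 1 + (p * q) * j ≤ x := by
      have e1 : (p * q) * (j + 1) ≤ (p * q) * J := Nat.mul_le_mul_left _ hj
      have e2 : (p * q) * J ≤ x := Nat.mul_div_le _ _
      have e3 : (p * q) * (j + 1) = (p * q) * j + p * q := by ring
      omega
    rw [mem_union]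
    by_cases hrep : Representable p q (1 + (p * q) * j)
    · right
      obtain ⟨S, hS1, hS2, hS3⟩ := hrep
      rw [← hS3]
      apply mem_F p q (by omega) (by omega) _ _ S _ hS2
      intro t ht
      obtain ⟨k, l, hkl⟩ := hS1 t ht
      have htx : t ≤ x := by
        have : t ≤ ∑ s ∈ S, s := single_le_sum (f := fun s => s) (fun _ _ => Nat.zero_le _) ht
        omega
      have hk : p ^ k ≤ x := by
        refine le_trans ?_ htx
        rw [hkl]; exact Nat.le_mul_of_pos_right _ (by positivity)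
      have hl : q ^ l ≤ x := by
        refine le_trans ?_ htx
        rw [hkl]; exact Nat.le_mul_of_pos_left _ (by positivity)
      have hk' := Nat.le_log_of_pow_le (by omega : 1 < p) hk
      have hl' := Nat.le_log_of_pow_le (by omega : 1 < q) hl
      exact ⟨k, by omega, l, by omega, hkl⟩
    · left
      rw [hE, Set.Finite.mem_toFinset]
      exact ⟨by omega, hcop, hrep⟩
  have hcard : J ≤ E.card + (F p q (a+1) (b+1)).card := by
    have e1 := card_le_card hsub
    rw [card_image_of_injective _ (by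
      intro i j hij
      have hij' : (p * q) * i = (p * q) * j := by simpa using hij
      exact Nat.eq_of_mul_eq_mul_left hpq hij'), card_range] at e1
    exact e1.trans (card_union_le _ _)
  have hcardR : (J:ℝ) ≤ E.card + (1 + z) ^ (a+1) * w ^ (b+1) := by
    have e1 : (J:ℝ) ≤ E.card + (F p q (a+1) (b+1)).card := by exact_mod_cast hcard
    have e2 := F_card p q z hz (a+1) (b+1)
    linarith
  -- bound for the main term
  set U := (1 + z) ^ a with hU
  set V := w ^ b with hV
  have hxR : (1:ℝ) ≤ x := by exact_mod_cast hxpos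
  have hUs : U ^ s ≤ (x:ℝ) ^ r := by
    rw [hU, ← pow_mul, mul_comm a s, pow_mul]
    calc ((1 + z) ^ s) ^ a ≤ ((p:ℝ) ^ r) ^ a := pow_le_pow_left₀ (by positivity) h1 a
      _ = ((p:ℝ) ^ a) ^ r := by rw [← pow_mul, ← pow_mul, mul_comm]
      _ ≤ (x:ℝ) ^ r := pow_le_pow_left₀ (by positivity) (by exact_mod_cast hpa) r
  have hVs : V ^ s' ≤ (x:ℝ) ^ r' := by
    rw [hV, ← pow_mul, mul_comm b s', pow_mul]
    calc (w ^ s') ^ b ≤ ((q:ℝ) ^ r') ^ b := pow_le_pow_left₀ (by positivity) h2 b
      _ = ((q:ℝ) ^ b) ^ r' := by rw [← pow_mul, ← pow_mul, mul_comm]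
      _ ≤ (x:ℝ) ^ r' := pow_le_pow_left₀ (by positivity) (by exact_mod_cast hqb) r'
  have hUV : U * V ≤ (y:ℝ) ^ (T-1) := by
    have e1 : (U * V) ^ T ≤ ((y:ℝ) ^ (T-1)) ^ T := by
      calc (U * V) ^ T = (U ^ s) ^ s' * (V ^ s') ^ s := by rw [mul_pow, hT, pow_mul, mul_comm s s', pow_mul]
        _ ≤ ((x:ℝ) ^ r) ^ s' * ((x:ℝ) ^ r') ^ s := mul_le_mul (pow_le_pow_left₀ (by positivity) hUs s') (pow_le_pow_left₀ (by positivity) hVs s) (by positivity) (by positivity)
        _ = (x:ℝ) ^ (r * s' + r' * s) := by rw [← pow_mul, ← pow_mul, ← pow_add]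
        _ ≤ (x:ℝ) ^ (T-1) := pow_le_pow_right₀ hxR (by omega)
        _ = ((y:ℝ) ^ (T-1)) ^ T := by rw [hx]; push_cast; rw [← pow_mul, ← pow_mul, mul_comm]
    exact (pow_le_pow_iff_left₀ (by positivity) (by positivity) (by omega)).1 e1
  have hJx : (x:ℝ) < ((p * q : ℕ) : ℝ) * (J + 1) := by
    have e1 : x < (p * q) * (J + 1) := by
      have := Nat.div_add_mod x (p * q)
      have := Nat.mod_lt x hpq
      have e3 : (p * q) * (J + 1) = (p * q) * J + p * q := by ring
      rw [← hJ] at *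
      omega
    exact_mod_cast e1
  have hyT : (x:ℝ) = y * (y:ℝ) ^ (T-1) := by
    rw [hx]; push_cast
    rw [← pow_succ']; congr 1; omega
  have hyT1 : (1:ℝ) ≤ (y:ℝ) ^ (T-1) := one_le_pow₀ hy1
  have e5 : (1 + z) ^ (a+1) * w ^ (b+1) = ((1 + z) * w) * (U * V) := by rw [hU, hV, pow_succ, pow_succ]; ring
  have e6 : ((1 + z) * w) * (U * V) ≤ ((1 + z) * w) * (y:ℝ) ^ (T-1) := mul_le_mul_of_nonneg_left hUV hC0
  have e7 : (J:ℝ) + 1 ≤ (1 + E.card + (1 + z) * w) * (y:ℝ) ^ (T-1) := by
    have : (1 + (E.card:ℝ)) * 1 ≤ (1 + (E.card:ℝ)) * (y:ℝ) ^ (T-1) := mul_le_mul_of_nonneg_left hyT1 (by positivity)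
    linarith
  have e8 : (y:ℝ) * (y:ℝ) ^ (T-1) < (((p * q : ℕ) : ℝ) * (1 + E.card + (1 + z) * w)) * (y:ℝ) ^ (T-1) := by
    rw [← hyT]
    refine lt_of_lt_of_le hJx ?_
    rw [mul_assoc]
    exact mul_le_mul_of_nonneg_left e7 (by positivity)
  have e9 := lt_of_mul_lt_mul_right e8 (by positivity)
  linarith

/-- residue obstruction -/
lemma residue (c g r : ℕ) (hr : r ∣ c) (S : Finset ℕ) (hS : ∀ s ∈ S, ∃ k l : ℕ, s = c ^ k * g ^ l)
    (hanti : ∀ s ∈ S, ∀ t ∈ S, s ∣ t → s = t) : (∑ s ∈ S, s) % r = 0 ∨ ∃ l, (∑ s ∈ S, s) % r = g ^ l % r := by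
  classical
  have h1 : (∑ s ∈ S, s) = ∑ s ∈ S.filter (fun s => r ∣ s), s + ∑ s ∈ S.filter (fun s => ¬ r ∣ s), s := (sum_filter_add_sum_filter_not S _ _).symm
  have h2 : r ∣ ∑ s ∈ S.filter (fun s => r ∣ s), s := dvd_sum (fun s hs => (mem_filter.1 hs).2)
  have h3 : (∑ s ∈ S, s) % r = (∑ s ∈ S.filter (fun s => ¬ r ∣ s), s) % r := by
    obtain ⟨m, hm⟩ := h2
    rw [h1, hm, Nat.mul_add_mod]
  have hg : ∀ s ∈ S.filter (fun s => ¬ r ∣ s), ∃ l, s = g ^ l := by
    intro s hs
    rw [mem_filter] at hs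
    obtain ⟨k, l, hkl⟩ := hS s hs.1
    rcases Nat.eq_zero_or_pos k with h | h
    · exact ⟨l, by rw [hkl, h]; simp⟩
    · exfalso
      apply hs.2
      rw [hkl]
      exact Dvd.dvd.mul_right (dvd_pow hr (by omega)) _
  have h4 : (S.filter (fun s => ¬ r ∣ s)).card ≤ 1 := by
    rw [card_le_one]
    intro s hs t ht
    obtain ⟨l, hl⟩ := hg s hs
    obtain ⟨l', hl'⟩ := hg t ht
    rcases le_total l l' with h | h
    · exact hanti s (mem_filter.1 hs).1 t (mem_filter.1 ht).1 (by rw [hl, hl']; exact pow_dvd_pow g h)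
    · exact (hanti t (mem_filter.1 ht).1 s (mem_filter.1 hs).1 (by rw [hl, hl']; exact pow_dvd_pow g h)).symm
  rw [h3]
  rcases Nat.eq_zero_or_pos (S.filter (fun s => ¬ r ∣ s)).card with h | h
  · left
    rw [card_eq_zero.1 h]; simp
  · right
    obtain ⟨s, hs⟩ := card_eq_one.1 (le_antisymm h4 h)
    obtain ⟨l, hl⟩ := hg s (by rw [hs]; exact mem_singleton_self s)
    exact ⟨l, by rw [hs, sum_singleton, hl]⟩

lemma two_pow_mod_seven (l : ℕ) : 2 ^ l % 7 = 1 ∨ 2 ^ l % 7 = 2 ∨ 2 ^ l % 7 = 4 := by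
  induction l with
  | zero => simp
  | succ l ih => rw [pow_succ]; omega

lemma four_pow_mod_three (l : ℕ) : 4 ^ l % 3 = 1 := by
  induction l with
  | zero => simp
  | succ l ih => rw [pow_succ]; omega

lemma case72 : {n : ℕ | 0 < n ∧ Nat.Coprime n (7 * 2) ∧ ¬ Representable 7 2 n}.Infinite := by
  refine Set.infinite_of_injective_forall_mem (f := fun m : ℕ => 3 + (7 * 2) * m) ?_ ?_
  · intro i j hij
    simpa using hij
  · intro m
    refine ⟨by omega, ?_, ?_⟩
    · rw [Nat.coprime_add_mul_left_left]; decide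
    · rintro ⟨S, h1, h2, h3⟩
      rcases residue 7 2 7 dvd_rfl S h1 h2 with h | ⟨l, h⟩
      · rw [h3] at h; omega
      · rw [h3] at h
        rcases two_pow_mod_seven l with h' | h' | h' <;> omega

lemma case43 : {n : ℕ | 0 < n ∧ Nat.Coprime n (4 * 3) ∧ ¬ Representable 4 3 n}.Infinite := by
  refine Set.infinite_of_injective_forall_mem (f := fun m : ℕ => 5 + (4 * 3) * m) ?_ ?_
  · intro i j hij
    simpa using hij
  · intro m
    refine ⟨by omega, ?_, ?_⟩
    · rw [Nat.coprime_add_mul_left_left]; decide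
    · rintro ⟨S, h1, h2, h3⟩
      rcases residue 3 4 3 dvd_rfl S (fun s hs => by
        obtain ⟨k, l, hkl⟩ := h1 s hs
        exact ⟨l, k, by rw [hkl, mul_comm]⟩) h2 with h | ⟨l, h⟩
      · rw [h3] at h; omega
      · rw [h3, four_pow_mod_three l] at h; omega

theorem result : ∀ p q : ℕ, Nat.Coprime p q → 2 ≤ q → q < p →
    ¬ (p = 3 ∧ q = 2) → ¬ (p = 5 ∧ q = 2) → ¬ (p = 9 ∧ q = 2) → ¬ (p = 5 ∧ q = 3) →
    {n : ℕ | 0 < n ∧ Nat.Coprime n (p * q) ∧ ¬ Representable p q n}.Infinite := by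
  intro p q hcop hq hqp h1 h2 h3 h4
  have hpR : ∀ c : ℕ, c ≤ p → ∀ r : ℕ, ((c:ℝ)) ^ r ≤ (p:ℝ) ^ r := fun c hc r => pow_le_pow_left₀ (by positivity) (by exact_mod_cast hc) r
  rcases Nat.lt_or_ge q 4 with hq4 | hq4
  · interval_cases q
    · -- q = 2
      have hodd : p % 2 = 1 := by
        rcases Nat.mod_two_eq_zero_or_one p with h | h
        · exfalso
          have : 2 ∣ Nat.gcd p 2 := Nat.dvd_gcd (Nat.dvd_of_mod_eq_zero h) dvd_rfl
          rw [hcop] at this; omega
        · exact h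
      rcases Nat.lt_or_ge p 11 with hp | hp
      · have : p = 7 := by omega
        subst this; exact case72
      · refine count_main p 2 le_rfl (by omega) 3 (by norm_num) 19 11 12 5 ?_ ?_ (by norm_num)
        · refine le_trans ?_ (hpR 11 hp 11); norm_num
        · norm_num
    · -- q = 3
      have hnd : p % 3 ≠ 0 := by
        intro h
        have : 3 ∣ Nat.gcd p 3 := Nat.dvd_gcd (Nat.dvd_of_mod_eq_zero h) dvd_rfl
        rw [hcop] at this; omega
      rcases Nat.lt_or_ge p 7 with hp | hp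
      · have : p = 4 := by omega
        subst this; exact case43
      · refine count_main p 3 (by norm_num) (by omega) 2 (by norm_num) 7 4 8 3 ?_ ?_ (by norm_num)
        · refine le_trans ?_ (hpR 7 hp 4); norm_num
        · norm_num
  · refine count_main p q (by omega) (by omega) 1 (by norm_num) 16 7 2 1 ?_ ?_ (by norm_num)
    · refine le_trans ?_ (hpR 5 (by omega) 7); norm_num
    · have : (4:ℝ) ≤ q := by exact_mod_cast hq4
      norm_num; linarith

end Pool.Agent.Results.MP_daf63b_nt.Counting
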